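import Mathlib
import Pool.Agent.Lib.MP_f30c32_an.Defs
import Pool.Agent.Lib.MP_f30c32_an.Bessel
import Pool.Agent.Lib.MP_f30c32_an.Zeros

set_option autoImplicit false

open Filter Topology Set
open scoped Nat

namespace Pool.Agent.Results.MP_f30c32_an.TuranRatioMinima

open Pool.Agent.Lib.MP_f30c32_an

/-- The limit of `Φ_ν` at zero. -/
theorem tendsto_turanRatio {ν : ℝ} (hν : 0 < ν) :
    Tendsto (turanRatio ν) (𝓝[>] 0) (𝓝 (1 / (ν + 1))) := by
  have h1 : -1 < ν := by linarith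
  have h2 : -1 < ν + 1 := by linarith
  have hG0 : G ν 0 ≠ 0 := (G_zero_pos h1).ne'
  have hq : Tendsto (fun x : ℝ => x ^ 2 / 4) (𝓝 0) (𝓝 0) := by
    have : ContinuousAt (fun x : ℝ => x ^ 2 / 4) 0 := by fun_prop
    have h := this.tendsto
    simpa using h
  have hG : Tendsto (fun x : ℝ => G ν (x ^ 2 / 4)) (𝓝 0) (𝓝 (G ν 0)) :=
    (continuousAt_G h1 0).tendsto.comp hq
  have hG1 : Tendsto (fun x : ℝ => G (ν + 1) (x ^ 2 / 4)) (𝓝 0) (𝓝 (G (ν + 1) 0)) :=
    (continuousAt_G h2 0).tendsto.comp hq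
  obtain ⟨δ, hδ, hJ⟩ := besselJ_pos_near_zero (μ := ν) h1
  have hloc : (fun x => 1 - ν * (G (ν + 1) (x ^ 2 / 4) / G ν (x ^ 2 / 4)) +
      x ^ 2 / 4 * (G (ν + 1) (x ^ 2 / 4) / G ν (x ^ 2 / 4)) ^ 2) =ᶠ[𝓝[>] 0] turanRatio ν := by
    have hlt : ∀ᶠ w : ℝ in 𝓝[>] 0, w < δ :=
      (eventually_lt_nhds hδ).filter_mono nhdsWithin_le_nhds
    filter_upwards [self_mem_nhdsWithin, hlt] with x hx hxδ
    have hx' : (0 : ℝ) < x := hx
    have hx2 : 0 < x / 2 := by positivity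
    have hJx := hJ x hx' hxδ
    unfold turanRatio
    rw [turanDelta_eq hν hx']
    rw [besselJ_eq _ hx'] at hJx
    rw [besselJ_eq _ hx', besselJ_eq _ hx', Real.rpow_add_one hx2.ne']
    have hr : (x / 2) ^ ν ≠ 0 := (Real.rpow_pos_of_pos hx2 ν).ne'
    have hg : G ν (x ^ 2 / 4) ≠ 0 := by
      intro h0
      rw [h0, mul_zero] at hJx
      exact lt_irrefl _ hJx
    field_simp
    ring
  refine Tendsto.congr' hloc ?_
  have hquot := hG1.div hG hG0
  have h := ((tendsto_const_nhds (x := (1 : ℝ))).sub (hquot.const_mul ν)).add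
    (hq.mul (hquot.pow 2))
  have h' := h.mono_left (nhdsWithin_le_nhds (s := Ioi (0 : ℝ)))
  have hval : 1 - ν * (G (ν + 1) 0 / G ν 0) + 0 * (G (ν + 1) 0 / G ν 0) ^ 2 = 1 / (ν + 1) := by
    rw [G_zero, G_zero]
    unfold cf
    have e1 : ((0 : ℕ) : ℝ) + (ν + 1) + 1 = (ν + 1) + 1 := by push_cast; ring
    have e2 : ((0 : ℕ) : ℝ) + ν + 1 = ν + 1 := by push_cast; ring
    rw [e1, e2, Real.Gamma_add_one (by linarith : ν + 1 ≠ 0)]
    have hGa := Real.Gamma_pos_of_pos (by linarith : 0 < ν + 1)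
    have hν1 : ν + 1 ≠ 0 := by linarith
    field_simp
    ring
  rw [hval] at h'
  exact h'

/-- **Main theorem.** For every `ν > 0`, with `0 = j 0 < j 1 < j 2 < ...` the enumeration of
the positive zeros of `J_ν`: the ratio `Φ_ν` has exactly one critical point `α n` in each
`(j n, j (n+1))`, `n ≥ 1`, and the sequence `β 0 = 1/(ν+1)` (limit of `Φ_ν` at `0+`),
`β n = Φ_ν (α n)` is strictly increasing. -/
theorem result (ν : ℝ) (hν : 0 < ν) :
    ∃ j : ℕ → ℝ, j 0 = 0 ∧ StrictMono j ∧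
      (∀ x, 0 < x → (besselJ ν x = 0 ↔ ∃ k, 1 ≤ k ∧ j k = x)) ∧
      (∀ n, ∀ x ∈ Ioo (j n) (j (n + 1)), DifferentiableAt ℝ (turanRatio ν) x) ∧
      Tendsto (turanRatio ν) (𝓝[>] 0) (𝓝 (1 / (ν + 1))) ∧
      ∃ α β : ℕ → ℝ,
        (∀ n, 1 ≤ n → α n ∈ Ioo (j n) (j (n + 1)) ∧ deriv (turanRatio ν) (α n) = 0 ∧
          (∀ x ∈ Ioo (j n) (j (n + 1)), deriv (turanRatio ν) x = 0 → x = α n) ∧
          β n = turanRatio ν (α n)) ∧
        β 0 = 1 / (ν + 1) ∧ StrictMono β := by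
  refine ⟨jz ν, rfl, jz_strictMono hν, fun x hx => jz_range hν hx, ?_, tendsto_turanRatio hν, ?_⟩
  · intro n x hx
    have hx0 : 0 < x := lt_of_le_of_lt (jz_nonneg hν n) hx.1
    have hJ : besselJ ν x ≠ 0 := (nextZero_spec hν (jz_nonneg hν n)).2.2 x hx.1 hx.2
    exact (hasDerivAt_turanRatio hν hx0 hJ).differentiableAt
  · have hcrit : ∀ n : ℕ, ∃ a : ℝ, 1 ≤ n → a ∈ Ioo (jz ν n) (jz ν (n + 1)) ∧
        deriv (turanRatio ν) a = 0 ∧
        (∀ x ∈ Ioo (jz ν n) (jz ν (n + 1)), deriv (turanRatio ν) x = 0 → x = a) ∧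
        0 < uu ν a ∧ uu ν a < ν ∧ turanRatio ν a = 1 / (1 + uu ν a) ∧
        a ^ 2 = (ν ^ 2 - uu ν a ^ 2) * (1 + uu ν a) / uu ν a := by
      intro n
      by_cases hn : 1 ≤ n
      · obtain ⟨a, ha, h⟩ := (jz_gap hν hn).critical hν
        exact ⟨a, fun _ => ⟨ha, h⟩⟩
      · exact ⟨0, fun h => absurd h hn⟩
    choose α hα using hcrit
    refine ⟨α, fun n => if n = 0 then 1 / (ν + 1) else turanRatio ν (α n), ?_, ?_, ?_⟩
    · intro n hn
      obtain ⟨h1, h2, h3, _⟩ := hα n hn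
      refine ⟨h1, h2, h3, ?_⟩
      exact if_neg (by omega)
    · simp
    · apply strictMono_nat_of_lt_succ
      intro n
      rcases Nat.eq_zero_or_pos n with hn | hn
      · subst hn
        rw [if_pos rfl, if_neg (by omega)]
        obtain ⟨_, _, _, h4, h5, h6, _⟩ := hα (0 + 1) (by omega)
        rw [h6]
        exact one_div_lt_one_div_of_lt (by linarith) (by linarith)
      · rw [if_neg (by omega), if_neg (by omega)]
        obtain ⟨a1, _, _, a4, _, a6, a7⟩ := hα n hn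
        obtain ⟨b1, _, _, b4, _, b6, b7⟩ := hα (n + 1) (by omega)
        have hαpos : 0 < α n := (jz_pos hν hn).trans a1.1
        have hlt : α n < α (n + 1) := a1.2.trans b1.1
        have hu := critical_compare a4 b4 hαpos hlt a7 b7
        rw [a6, b6]
        exact one_div_lt_one_div_of_lt (by linarith) (by linarith)

end Pool.Agent.Results.MP_f30c32_an.TuranRatioMinima
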